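import Mathlib
import Pool.Agent.R739.RD.Chi

/-!
# Random digits in any real base: orthogonality and characteristic functions of blocks
-/

set_option autoImplicit false

open Finset Filter Topology MeasureTheory ProbabilityTheory
open scoped Real

namespace Pool.Agent.R430.RB

open Pool.Agent.R739.RD Pool.Agent.H534R3.UDist

/-- partial sums of the digits over a finite set of positions -/
noncomputable def SS {Ω : Type} (D : ℕ → Ω → ℝ) (b : ℝ) (S : Finset ℕ) (ω : Ω) : ℝ :=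
  ∑ j ∈ S, D j ω / b ^ (j + 1)

lemma measurable_SS {Ω : Type} [MeasurableSpace Ω] (D : ℕ → Ω → ℝ) (b : ℝ) (S : Finset ℕ)
    (hD : ∀ j ∈ S, Measurable (D j)) : Measurable (SS D b S) := by
  unfold SS
  exact Finset.measurable_fun_sum _ fun j hj => (hD j hj).div_const _

/-- the centred variables -/
noncomputable def YY {Ω : Type} (D : ℕ → Ω → ℝ) (b : ℝ) (z : ℂ) (s : ℝ) (A B : Finset ℕ) (c : ℂ)
    (ω : Ω) : ℂ := z * (ee (s * SS D b A ω) * (ee (s * SS D b B ω) - c))

lemma measurable_YY {Ω : Type} [MeasurableSpace Ω] (D : ℕ → Ω → ℝ) (b : ℝ) (z : ℂ) (s : ℝ)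
    (A B : Finset ℕ) (c : ℂ) (hA : ∀ j ∈ A, Measurable (D j)) (hB : ∀ j ∈ B, Measurable (D j)) :
    Measurable (YY D b z s A B c) := by
  unfold YY
  have h1 : Measurable fun ω => ee (s * SS D b A ω) :=
    measurable_ee.comp ((measurable_SS D b A hA).const_mul s)
  have h2 : Measurable fun ω => ee (s * SS D b B ω) :=
    measurable_ee.comp ((measurable_SS D b B hB).const_mul s)
  exact (h1.mul (h2.sub_const c)).const_mul z

lemma norm_YY_le {Ω : Type} (D : ℕ → Ω → ℝ) (b : ℝ) (z : ℂ) (hz : ‖z‖ ≤ 1) (s : ℝ)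
    (A B : Finset ℕ) (c : ℂ) (hc : ‖c‖ ≤ 1) (ω : Ω) : ‖YY D b z s A B c ω‖ ≤ 2 := by
  unfold YY
  rw [norm_mul, norm_mul, norm_ee, one_mul]
  have h1 : ‖ee (s * SS D b B ω) - c‖ ≤ 2 := by
    refine (norm_sub_le _ _).trans ?_
    rw [norm_ee]
    linarith
  calc ‖z‖ * ‖ee (s * SS D b B ω) - c‖ ≤ 1 * 2 :=
        mul_le_mul hz h1 (norm_nonneg _) zero_le_one
    _ = 2 := by norm_num

lemma indep_of {Ω : Type} [MeasurableSpace Ω] (P : Measure Ω) [IsProbabilityMeasure P]
    (D : ℕ → Ω → ℝ) (hD : ∀ j, Measurable (D j)) (hI : iIndepFun D P) (S T : Finset ℕ)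
    (hST : Disjoint S T) (U V : Ω → ℂ)
    (hU : @Measurable Ω ℂ (⨆ j ∈ (S : Set ℕ), MeasurableSpace.comap (D j) inferInstance) _ U)
    (hV : @Measurable Ω ℂ (⨆ j ∈ (T : Set ℕ), MeasurableSpace.comap (D j) inferInstance) _ V) :
    IndepFun U V P := by
  have h1 : Indep (⨆ j ∈ (S : Set ℕ), MeasurableSpace.comap (D j) inferInstance)
      (⨆ j ∈ (T : Set ℕ), MeasurableSpace.comap (D j) inferInstance) P :=
    indep_iSup_of_disjoint (fun j => (hD j).comap_le) hI (by exact_mod_cast hST)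
  exact indep_of_indep_of_le_left (indep_of_indep_of_le_right h1 hV.comap_le) hU.comap_le

lemma meas_sup {Ω : Type} (D : ℕ → Ω → ℝ) (S : Finset ℕ) (j : ℕ) (hj : j ∈ S) :
    @Measurable Ω ℝ (⨆ j ∈ (S : Set ℕ), MeasurableSpace.comap (D j) inferInstance) _ (D j) := by
  apply Measurable.of_comap_le
  exact le_iSup₂_of_le j (by exact_mod_cast hj) le_rfl

lemma cov_zero {Ω : Type} [MeasurableSpace Ω] (P : Measure Ω) [IsProbabilityMeasure P]
    (D : ℕ → Ω → ℝ) (hD : ∀ j, Measurable (D j)) (hI : iIndepFun D P) (b : ℝ)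
    (T A B A' B' : Finset ℕ) (hA : A ⊆ T) (hB : B ⊆ T) (hA' : A' ⊆ T) (hT : Disjoint T B')
    (z z' : ℂ) (s s' : ℝ) (c : ℂ) :
    ∫ ω, YY D b z' s' A' B' (∫ x, ee (s' * SS D b B' x) ∂P) ω *
      (starRingEnd ℂ) (YY D b z s A B c ω) ∂P = 0 := by
  set c' := ∫ x, ee (s' * SS D b B' x) ∂P with hc'
  set U : Ω → ℂ := fun ω => z' * ee (s' * SS D b A' ω) * (starRingEnd ℂ) (YY D b z s A B c ω)
    with hU
  set V : Ω → ℂ := fun ω => ee (s' * SS D b B' ω) - c' with hV
  have e : ∀ ω, YY D b z' s' A' B' c' ω * (starRingEnd ℂ) (YY D b z s A B c ω) = U ω * V ω := by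
    intro ω
    rw [hU, hV]
    show z' * (ee (s' * SS D b A' ω) * (ee (s' * SS D b B' ω) - c')) * _ = _
    ring
  simp only [e]
  have mU : ∀ (m : MeasurableSpace Ω), (∀ j ∈ T, @Measurable Ω ℝ m _ (D j)) →
      @Measurable Ω ℂ m _ U := by
    intro m hm
    have h1 : @Measurable Ω ℂ m _ fun ω => ee (s' * SS D b A' ω) :=
      measurable_ee.comp ((@measurable_SS Ω m D b A' fun j hj => hm j (hA' hj)).const_mul s')
    have h2 : @Measurable Ω ℂ m _ (YY D b z s A B c) :=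
      @measurable_YY Ω m D b z s A B c (fun j hj => hm j (hA hj)) (fun j hj => hm j (hB hj))
    have h3 : @Measurable Ω ℂ m _ fun ω => (starRingEnd ℂ) (YY D b z s A B c ω) :=
      (Complex.continuous_conj.measurable).comp h2
    exact (h1.const_mul z').mul h3
  have mV : ∀ (m : MeasurableSpace Ω), (∀ j ∈ B', @Measurable Ω ℝ m _ (D j)) →
      @Measurable Ω ℂ m _ V := by
    intro m hm
    have h1 : @Measurable Ω ℂ m _ fun ω => ee (s' * SS D b B' ω) :=
      measurable_ee.comp ((@measurable_SS Ω m D b B' fun j hj => hm j hj).const_mul s')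
    exact h1.sub_const c'
  have hind : IndepFun U V P := indep_of P D hD hI T B' hT U V
    (mU _ fun j hj => meas_sup D T j hj) (mV _ fun j hj => meas_sup D B' j hj)
  have h1 := hind.integral_fun_mul_eq_mul_integral
    (mU _ fun j _ => hD j).aestronglyMeasurable (mV _ fun j _ => hD j).aestronglyMeasurable
  have h2 : ∫ ω, V ω ∂P = 0 := by
    rw [hV]
    have hi : Integrable (fun ω => ee (s' * SS D b B' ω)) P :=
      integrable_ee P _ ((measurable_SS D b B' fun j _ => hD j).const_mul s')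
    rw [integral_sub hi (integrable_const _), integral_const]
    simp [hc']
  rw [h1, h2, mul_zero]

lemma chi_fin {Ω : Type} [MeasurableSpace Ω] (P : Measure Ω) [IsProbabilityMeasure P]
    (W : ℕ → Ω → ℝ) (hW : ∀ j, Measurable (W j)) (hI : iIndepFun W P) (S : Finset ℕ) (t : ℝ) :
    ∫ ω, ee (t * ∑ j ∈ S, W j ω) ∂P = ∏ j ∈ S, ∫ ω, ee (t * W j ω) ∂P := by
  have key : ∀ X : Ω → ℝ, Measurable X →
      ∫ ω, ee (t * X ω) ∂P = charFun (P.map X) (2 * π * t) := by
    intro X hX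
    rw [charFun_apply_real, integral_map hX.aemeasurable (by fun_prop)]
    refine integral_congr_ae (Eventually.of_forall fun ω => ?_)
    show ee (t * X ω) = _
    rw [ee_eq]
    congr 1
    push_cast
    ring
  have h1 := (hI.restrict (S : Finset ℕ)).charFun_map_fun_finsetSum_eq_prod
    (fun i _ => (hW i).aemeasurable)
  rw [key _ (Finset.measurable_fun_sum _ fun j _ => hW j), h1, Finset.prod_apply]
  exact Finset.prod_congr rfl fun j _ => (key _ (hW j)).symm

/-- the digit `D` has two atoms whose distance is in `L`, of mass at least `c` -/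
def TwoAt {Ω : Type} [MeasurableSpace Ω] (P : Measure Ω) (X : Ω → ℝ) (L : Finset ℝ) (c : ℝ) :
    Prop := ∃ x, ∃ l ∈ L, c ≤ P.real {ω | X ω = x} ∧ c ≤ P.real {ω | X ω = x + l}

lemma phi_bound {Ω : Type} [MeasurableSpace Ω] (P : Measure Ω) [IsProbabilityMeasure P]
    (X : Ω → ℝ) (hX : Measurable X) (L : Finset ℝ) (hL : ∀ l ∈ L, l ≠ 0) (c : ℝ) (hc : 0 < c)
    (hT : TwoAt P X L c) (δ : ℝ) (hδ : 0 ≤ δ) (u : ℝ) (hu : ∀ l ∈ L, δ ≤ dz (u * l)) :
    ‖∫ ω, ee (u * X ω) ∂P‖ ≤ 1 - 4 * c * δ ^ 2 := by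
  obtain ⟨x, l, hl, h2, h3⟩ := hT
  have hmap : ∀ y : ℝ, (P.map X).real {y} = P.real {ω | X ω = y} := by
    intro y
    rw [map_measureReal_apply hX (measurableSet_singleton y)]
    rfl
  have : IsProbabilityMeasure (P.map X) := Measure.isProbabilityMeasure_map hX.aemeasurable
  have h4 := two_atoms (P.map X) x l c u (hL l hl) hc
    (by rw [hmap]; exact h2) (by rw [hmap]; exact h3)
  have h5 : ∫ ω, ee (u * X ω) ∂P = ∫ y, ee (u * y) ∂(P.map X) := by
    have hm : AEStronglyMeasurable (fun y : ℝ => ee (u * y)) (P.map X) :=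
      (measurable_ee.comp (measurable_id.const_mul _)).aestronglyMeasurable
    rw [integral_map hX.aemeasurable hm]
  rw [h5]
  refine h4.trans ?_
  have h6 : δ ^ 2 ≤ dz (u * l) ^ 2 := pow_le_pow_left₀ hδ (hu l hl) 2
  nlinarith

end Pool.Agent.R430.RB
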