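import Mathlib
import Pool.Agent.R739.RD.Chi

/-!
# Random digits in any real base: statements of the pieces
-/

set_option autoImplicit false

open Finset Filter Topology MeasureTheory ProbabilityTheory
open scoped Real

namespace Pool.Agent.R430.RB

open Pool.Agent.R739.RD Pool.Agent.H534R3.UDist

/-- NEAR: how often `V b ^ {n α}` is near to an integer -/
def S_NEAR : Prop := ∀ (b α δ V : ℝ), 1 < b → Irrational α → 0 < δ → δ ≤ 1 / 2 → 2 ≤ |V| →
  ∀ᶠ N : ℕ in atTop,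
    ((((range N).filter fun n : ℕ => dz (V * b ^ (Int.fract ((n : ℝ) * α))) < δ).card : ℕ) : ℝ) ≤
      (8 * (b + 2) / Real.log b + 1) * δ * N

/-- SLLN: strong law for bounded variables with orthogonality beyond distance `H` -/
def S_SLLN : Prop := ∀ {Ω : Type} [MeasurableSpace Ω] (P : Measure Ω) [IsProbabilityMeasure P]
  (Y : ℕ → Ω → ℂ) (H : ℕ), (∀ n, Measurable (Y n)) → (∀ n ω, ‖Y n ω‖ ≤ 2) →
  (∀ m n, m + H ≤ n → ∫ ω, Y n ω * (starRingEnd ℂ) (Y m ω) ∂P = 0) →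
  ∀ᵐ ω ∂P, Tendsto (fun N : ℕ => ‖∑ n ∈ range N, Y n ω‖ / N) atTop (𝓝 0)

end Pool.Agent.R430.RB
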