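import Mathlib
import Pool.Agent.R430.RB.Main
import Pool.Agent.R739.RD.Fin

/-!
# Random digits in any real base: conclusions
-/

set_option autoImplicit false

open Finset Filter Topology MeasureTheory ProbabilityTheory
open scoped Real

namespace Pool.Agent.R430.RB

open Pool.Agent.R739.RD Pool.Agent.H534R3.UDist

/-- the conclusions of the theorem -/
def Conclusion {Ω : Type} [MeasurableSpace Ω] (P : Measure Ω) (ξ : Ω → ℝ) (t : ℝ) : Prop :=
  (∀ η : ℝ, η ≠ 0 → ∀ z : ℕ → ℂ, (∀ n, ‖z n‖ ≤ 1) → ∀ᵐ ω ∂P, Tendsto (fun N : ℕ =>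
    (∑ n ∈ Icc 1 N, z n * Complex.exp (2 * π * Complex.I * (η * ξ ω * t ^ n : ℝ))) / (N : ℂ))
    atTop (𝓝 0)) ∧
  (∀ η : ℝ, η ≠ 0 → ∀ θ : ℕ → ℝ, ∀ᵐ ω ∂P, Equi fun n => η * ξ ω * t ^ n + θ n) ∧
  (∀ (m : ℕ) (η : Fin m → ℝ), LinearIndependent ℚ η → ∀ θ : ℕ → Fin m → ℝ, ∀ᵐ ω ∂P,
    EquiTorus fun n i => η i * ξ ω * t ^ n + θ n i) ∧
  (Transcendental ℚ t → ∀ η : ℝ, η ≠ 0 → ∀ᵐ ω ∂P, ∀ m : ℕ, EquiTorus fun n (i : Fin m) =>
    η * ξ ω * t ^ (n + (i : ℕ)))

lemma lin_pow (t : ℝ) (ht : Transcendental ℚ t) (m : ℕ) (η : ℝ) (hη : η ≠ 0) :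
    LinearIndependent ℚ (fun i : Fin m => η * t ^ (i : ℕ)) := by
  rw [Fintype.linearIndependent_iff]
  intro g hg i
  set p : Polynomial ℚ := ∑ j : Fin m, Polynomial.monomial (j : ℕ) (g j) with hp
  have h1 : Polynomial.aeval t p = 0 := by
    rw [hp, map_sum]
    simp only [Polynomial.aeval_monomial]
    have h2 : ∑ j : Fin m, g j • (η * t ^ (j : ℕ)) =
        η * ∑ j : Fin m, (algebraMap ℚ ℝ) (g j) * t ^ (j : ℕ) := by
      rw [mul_sum]
      refine sum_congr rfl fun j _ => ?_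
      rw [Algebra.smul_def]
      ring
    rw [h2] at hg
    rcases mul_eq_zero.1 hg with h3 | h3
    · exact absurd h3 hη
    · exact h3
  have h2 : p = 0 := by
    by_contra hne
    exact ht ⟨p, hne, h1⟩
  have h3 : p.coeff i = g i := by
    rw [hp, Polynomial.finsetSum_coeff]
    rw [Finset.sum_eq_single i]
    · rw [Polynomial.coeff_monomial, if_pos rfl]
    · intro j _ hj
      rw [Polynomial.coeff_monomial, if_neg]
      intro h
      exact hj (Fin.ext h)
    · intro h
      exact absurd (mem_univ i) h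
  rw [← h3, h2, Polynomial.coeff_zero]

theorem conclusion_of {Ω : Type} [MeasurableSpace Ω] (P : Measure Ω)
    [IsProbabilityMeasure P] (ξ : Ω → ℝ) (t : ℝ) (ht : t ≠ 0)
    (H0 : ∀ (z : ℕ → ℂ), (∀ n, ‖z n‖ ≤ 1) → ∀ a : ℝ, a ≠ 0 →
      ∀ᵐ ω ∂P, Tendsto (fun N : ℕ => ‖∑ n ∈ range N, z n * ee (a * t ^ n * ξ ω)‖ / N) atTop
        (𝓝 0)) : Conclusion P ξ t := by
  have H : ∀ (z : ℕ → ℂ), (∀ n, ‖z n‖ ≤ 1) → ∀ a : ℝ, a ≠ 0 →
      ∀ᵐ ω ∂P, Tendsto (fun N : ℕ => ‖∑ n ∈ Icc 1 N, z n * ee (a * ξ ω * t ^ n)‖ / N) atTop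
        (𝓝 0) := by
    intro z hz a ha
    filter_upwards [H0 (fun n => z (n + 1)) (fun n => hz _) (a * t) (mul_ne_zero ha ht)]
      with ω hω
    refine hω.congr fun N => ?_
    rw [← sum_shift (fun n => z n * ee (a * ξ ω * t ^ n)) N]
    congr 2
    refine sum_congr rfl fun n _ => ?_
    congr 2
    rw [pow_succ]
    ring
  have h3 : ∀ (m : ℕ) (η : Fin m → ℝ), LinearIndependent ℚ η → ∀ θ : ℕ → Fin m → ℝ, ∀ᵐ ω ∂P,
      EquiTorus fun n i => η i * ξ ω * t ^ n + θ n i := by
    intro m η hη θ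
    have h1 : ∀ k : Fin m → ℤ, ∀ᵐ ω ∂P, k ≠ 0 → Tendsto (fun N : ℕ =>
        ‖∑ n ∈ Icc 1 N, ee (∑ i, k i * (η i * ξ ω * t ^ n + θ n i))‖ / N) atTop (𝓝 0) := by
      intro k
      by_cases hk : k ≠ 0
      · have ha : (∑ i, k i * η i) ≠ 0 := by
          intro h0
          apply hk
          rw [Fintype.linearIndependent_iff] at hη
          have h2 := hη (fun i => (k i : ℚ)) (by
            rw [← h0]
            refine sum_congr rfl fun i _ => ?_
            rw [Algebra.smul_def]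
            simp)
          funext i
          have := h2 i
          simpa using this
        filter_upwards [H (fun n => ee (∑ i, k i * θ n i)) (fun n => (norm_ee _).le)
          (∑ i, k i * η i) ha] with ω hω _
        refine hω.congr fun N => ?_
        congr 2
        refine sum_congr rfl fun n _ => ?_
        rw [← ee_add]
        congr 1
        rw [sum_mul, sum_mul, ← sum_add_distrib]
        refine sum_congr rfl fun i _ => ?_
        ring
      · exact Eventually.of_forall fun ω h => absurd h hk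
    filter_upwards [ae_all_iff.2 h1] with ω hω
    exact equiTorus_of_weyl _ fun k hk => hω k hk
  refine ⟨?_, ?_, h3, ?_⟩
  · intro η hη z hz
    filter_upwards [H z hz η hη] with ω hω
    rw [tendsto_zero_iff_norm_tendsto_zero]
    refine hω.congr fun N => ?_
    rw [norm_div, Complex.norm_natCast]
    rfl
  · intro η hη θ
    have h1 : ∀ h : ℕ, ∀ᵐ ω ∂P, 1 ≤ h → Tendsto (fun N : ℕ =>
        ‖∑ n ∈ Icc 1 N, ee (h * (η * ξ ω * t ^ n + θ n))‖ / N) atTop (𝓝 0) := by
      intro h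
      by_cases hh : 1 ≤ h
      · have hh0 : (h : ℝ) ≠ 0 := by
          have : h ≠ 0 := by omega
          exact_mod_cast this
        filter_upwards [H (fun n => ee (h * θ n)) (fun n => (norm_ee _).le)
          (h * η) (mul_ne_zero hh0 hη)] with ω hω _
        refine hω.congr fun N => ?_
        congr 2
        refine sum_congr rfl fun n _ => ?_
        rw [← ee_add]
        congr 1
        ring
      · exact Eventually.of_forall fun ω h => absurd h hh
    filter_upwards [ae_all_iff.2 h1] with ω hω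
    exact equi_of_weyl _ fun k hk => hω k hk
  · intro htr η hη
    rw [ae_all_iff]
    intro m
    filter_upwards [h3 m (fun i => η * t ^ (i : ℕ)) (lin_pow t htr m η hη)
      (fun _ _ => 0)] with ω hω
    have e : (fun (n : ℕ) (i : Fin m) => η * ξ ω * t ^ (n + (i : ℕ))) =
        fun (n : ℕ) (i : Fin m) => η * t ^ (i : ℕ) * ξ ω * t ^ n + 0 := by
      funext n i
      rw [pow_add]
      ring
    rw [e]
    exact hω

/-- independent bounded digits, each with two atoms of mass at least `c` whose distance is in a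
fixed finite set of nonzero numbers -/
structure Digits {Ω : Type} [MeasurableSpace Ω] (P : Measure Ω) (D : ℕ → Ω → ℝ) : Prop where
  meas : ∀ j, Measurable (D j)
  indep : iIndepFun D P
  bdd : ∃ M : ℝ, ∀ j ω, |D j ω| ≤ M
  atoms : ∃ (L : Finset ℝ) (c : ℝ), 0 < c ∧ ∀ j, ∃ (x l : ℝ), l ∈ L ∧ l ≠ 0 ∧
    c ≤ P.real {ω | D j ω = x} ∧ c ≤ P.real {ω | D j ω = x + l}

theorem main (hN : S_NEAR) (hS : S_SLLN) (b t : ℝ) (hb : 1 < b) (ht : 1 < t)
    (hbt : Irrational (Real.log t / Real.log b)) {Ω : Type} [MeasurableSpace Ω] (P : Measure Ω)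
    [IsProbabilityMeasure P] (D : ℕ → Ω → ℝ) (hD : Digits P D) :
    Conclusion P (fun ω => ∑' j, D j ω / b ^ (j + 1)) t := by
  have hlb : 0 < Real.log b := Real.log_pos hb
  have hlt : 0 < Real.log t := Real.log_pos ht
  have hb0 : 0 < b := by linarith
  have ht0 : 0 < t := by linarith
  obtain ⟨M, hM⟩ := hD.bdd
  obtain ⟨L, c, hc, hat⟩ := hD.atoms
  have htb : t = b ^ (Real.log t / Real.log b) := by
    rw [Real.rpow_def_of_pos hb0, mul_div_cancel₀ _ hlb.ne', Real.exp_log ht0]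
  refine conclusion_of P _ t ht0.ne' fun z hz a ha => ?_
  refine ae_weyl hN hS P b t (Real.log t / Real.log b) hb htb (by positivity) hbt
    (L.filter fun l => l ≠ 0) (fun l hl => (Finset.mem_filter.1 hl).2) (min c (1 / 2))
    (by positivity) (min_le_right _ _) M D hD.meas hD.indep hM (fun j => ?_) a ha z hz
  obtain ⟨x, l, hl, hl0, h1, h2⟩ := hat j
  exact ⟨x, l, Finset.mem_filter.2 ⟨hl, hl0⟩, (min_le_left _ _).trans h1,
    (min_le_left _ _).trans h2⟩

/-- for algebraic `b > 1` the number `log b` is irrational -/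
lemma irr_exp (b : ℝ) (hb : 1 < b) (hba : IsAlgebraic ℚ b) :
    Irrational (Real.log (Real.exp 1) / Real.log b) := by
  rw [Real.log_exp]
  have hlb : 0 < Real.log b := Real.log_pos hb
  have h1 : Transcendental ℚ (Real.log b) := by
    intro h
    have h2 : IsAlgebraic ℚ ((Real.log b : ℝ) : ℂ) := h.algebraMap (A := ℂ)
    have h3 := Pool.Agent.H340R2.LW.transcendental_cexp _ h2 (by
      exact_mod_cast hlb.ne')
    apply h3
    rw [← Complex.ofReal_exp, Real.exp_log (by linarith)]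
    exact hba.algebraMap (A := ℂ)
  rintro ⟨q, hq⟩
  apply h1
  have h2 : Real.log b = ((q⁻¹ : ℚ) : ℝ) := by
    push_cast
    rw [hq, one_div, inv_inv]
  rw [h2]
  exact isAlgebraic_algebraMap (R := ℚ) (A := ℝ) q⁻¹

lemma irr_pi (b : ℝ) (hb : 1 < b) (hba : IsAlgebraic ℚ b) :
    Irrational (Real.log π / Real.log b) := by
  have hlb : 0 < Real.log b := Real.log_pos hb
  have hpi : (1 : ℝ) < π := by linarith [Real.pi_gt_three]
  have hlp : 0 < Real.log π := Real.log_pos hpi
  rintro ⟨q, hq⟩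
  have hq0 : (0 : ℝ) < q := by rw [hq]; positivity
  have hq0' : 0 < q := by exact_mod_cast hq0
  have hnum : 0 < q.num := Rat.num_pos.2 hq0'
  have h1 : (q.den : ℝ) * Real.log π = (q.num.toNat : ℝ) * Real.log b := by
    have h2 : Real.log π = q * Real.log b := by
      rw [hq]
      field_simp
    have h3 : (q : ℝ) = (q.num : ℝ) / q.den := by
      exact_mod_cast (Rat.num_div_den q).symm
    have h4 : ((q.num.toNat : ℕ) : ℝ) = (q.num : ℝ) := by
      have : ((q.num.toNat : ℕ) : ℤ) = q.num := Int.toNat_of_nonneg hnum.le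
      exact_mod_cast congrArg (fun z : ℤ => (z : ℝ)) this
    have h5 : (q.den : ℝ) ≠ 0 := by exact_mod_cast q.den_ne_zero
    rw [h2, h3, h4]
    field_simp
  have h2 : π ^ q.den = b ^ q.num.toNat := by
    have h3 := congrArg Real.exp h1
    rw [Real.exp_nat_mul, Real.exp_nat_mul, Real.exp_log (by linarith), Real.exp_log (by linarith)]
      at h3
    exact h3
  apply Pool.Agent.H340R2.LW.transcendental_pi
  have h3 : IsAlgebraic ℚ (π ^ q.den) := by
    rw [h2]
    exact hba.pow _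
  exact IsAlgebraic.of_pow q.den_pos h3

end Pool.Agent.R430.RB
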