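import Pool.Agent.R430.RB.Stm

/-!
# RB-NEAR: how often `V b ^ {n α}` is near to an integer (helper619 for helper430)
-/

set_option autoImplicit false

open Finset Filter Topology
open scoped Real

namespace Pool.Agent.R430.RB

open Pool.Agent.R739.RD Pool.Agent.H534R3.UDist

lemma ee_nat_mul (t : ℝ) (n : ℕ) : ee (n * t) = ee t ^ n := by
  induction n with
  | zero => simp [ee_zero]
  | succ n ih =>
    rw [pow_succ, ← ih, ← ee_add]
    congr 1
    push_cast
    ring

lemma ee_ne_one {t : ℝ} (ht : Irrational t) : ee t ≠ 1 := by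
  intro h
  rw [ee, Complex.exp_eq_one_iff] at h
  obtain ⟨m, hm⟩ := h
  have h2 : (2 * π * Complex.I : ℂ) ≠ 0 := Complex.two_pi_I_ne_zero
  have h3 : (t : ℂ) = m := by
    have h4 : (2 * π * Complex.I : ℂ) * t = (2 * π * Complex.I : ℂ) * m := by
      rw [hm]; ring
    exact mul_left_cancel₀ h2 h4
  have h5 : t = m := by exact_mod_cast h3
  exact ht ⟨m, by rw [h5]; norm_cast⟩

lemma ud_irr {α : ℝ} (hα : Irrational α) : UD (fun n : ℕ => (n : ℝ) * α) := by
  apply ud_of_weyl
  intro h hh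
  have hirr : Irrational ((h : ℝ) * α) := by
    have hh0 : h ≠ 0 := by omega
    exact hα.natCast_mul hh0
  have hz : ee ((h : ℝ) * α) - 1 ≠ 0 := sub_ne_zero.2 (ee_ne_one hirr)
  have hzn : 0 < ‖ee ((h : ℝ) * α) - 1‖ := norm_pos_iff.2 hz
  have hb : ∀ N : ℕ, ‖∑ n ∈ Finset.range N, ee ((h : ℝ) * ((n : ℝ) * α))‖ ≤
      2 / ‖ee ((h : ℝ) * α) - 1‖ := by
    intro N
    have h1 : ∑ n ∈ Finset.range N, ee ((h : ℝ) * ((n : ℝ) * α)) =
        ∑ n ∈ Finset.range N, ee ((h : ℝ) * α) ^ n := by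
      refine Finset.sum_congr rfl fun n _ => ?_
      rw [← ee_nat_mul]
      congr 1
      ring
    rw [h1, geom_sum_eq (ee_ne_one hirr), norm_div]
    apply div_le_div_of_nonneg_right _ hzn.le
    refine (norm_sub_le _ _).trans ?_
    rw [norm_pow, norm_ee, one_pow, norm_one]
    norm_num
  have hlim : Tendsto (fun N : ℕ => (2 / ‖ee ((h : ℝ) * α) - 1‖) / (N : ℝ)) atTop (𝓝 0) :=
    tendsto_const_div_atTop_nhds_zero_nat _
  refine squeeze_zero (fun N => by positivity) (fun N => ?_) hlim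
  exact div_le_div_of_nonneg_right (hb N) (Nat.cast_nonneg N)

lemma dz_neg (x : ℝ) : dz (-x) = dz x := by
  have h : ∀ y : ℝ, dz (-y) ≤ dz y := by
    intro y
    have h1 := dz_le_int (-y) (-round y)
    refine h1.trans (le_of_eq ?_)
    unfold dz
    rw [← abs_neg]
    congr 1
    push_cast
    ring
  refine le_antisymm (h x) ?_
  have := h (-x)
  rwa [neg_neg] at this

lemma dz_abs_mul (V y : ℝ) : dz (V * y) = dz (|V| * y) := by
  rcases abs_cases V with ⟨h, _⟩ | ⟨h, _⟩
  · rw [h]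
  · rw [h, neg_mul, dz_neg]

/-- clamping to the unit interval -/
noncomputable def cl (x : ℝ) : ℝ := min 1 (max 0 x)

lemma cl_nonneg (x : ℝ) : 0 ≤ cl x := le_min zero_le_one (le_max_left _ _)

lemma cl_le_one (x : ℝ) : cl x ≤ 1 := min_le_left _ _

lemma cl_mono {x y : ℝ} (h : x ≤ y) : cl x ≤ cl y := min_le_min le_rfl (max_le_max le_rfl h)

lemma cl_sub {x y : ℝ} (h : x ≤ y) : cl y - cl x ≤ y - x := by
  unfold cl
  rcases le_total 0 x with h1 | h1 <;> rcases le_total 0 y with h2 | h2 <;>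
    simp only [max_eq_left, max_eq_right, h1, h2] <;>
    rcases le_total 1 x with h3 | h3 <;> rcases le_total 1 y with h4 | h4 <;>
    simp only [min_eq_left, min_eq_right, h3, h4, zero_le_one, min_eq_right] <;> linarith

/-- NEAR -/
theorem near : S_NEAR := by
  intro b α δ V hb hα hδ0 hδ1 hV
  set v : ℝ := |V| with hv
  have hv0 : 0 < v := by linarith
  have hb0 : 0 < b := by linarith
  have hlogb : 0 < Real.log b := Real.log_pos hb
  set K : Finset ℤ := Finset.Icc ⌊v⌋ (⌊b * v⌋ + 1) with hK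
  set A : ℤ → ℝ := fun k => Real.log (((k : ℝ) - δ) / v) / Real.log b with hA
  set C : ℤ → ℝ := fun k => Real.log (((k : ℝ) + δ) / v) / Real.log b with hC
  -- bounds for k in K
  have hk : ∀ k ∈ K, v / 4 ≤ (k : ℝ) - δ := by
    intro k hkK
    rw [hK, Finset.mem_Icc] at hkK
    have h1 : (⌊v⌋ : ℝ) ≤ k := by exact_mod_cast hkK.1
    have h2 : v < ⌊v⌋ + 1 := Int.lt_floor_add_one v
    have h3 : (2 : ℤ) ≤ ⌊v⌋ := by
      rw [Int.le_floor]
      exact_mod_cast hV
    have h4 : (2 : ℝ) ≤ ⌊v⌋ := by exact_mod_cast h3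
    nlinarith
  have hAC : ∀ k ∈ K, A k ≤ C k := by
    intro k hkK
    have h1 := hk k hkK
    have h2 : 0 < (k : ℝ) - δ := by linarith [div_pos hv0 (show (0 : ℝ) < 4 by norm_num)]
    apply div_le_div_of_nonneg_right _ hlogb.le
    apply Real.log_le_log (by positivity)
    apply div_le_div_of_nonneg_right _ hv0.le
    linarith
  have hdiff : ∀ k ∈ K, cl (C k) - cl (A k) ≤ 8 * δ / (v * Real.log b) := by
    intro k hkK
    refine (cl_sub (hAC k hkK)).trans ?_
    have h1 := hk k hkK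
    have h2 : 0 < (k : ℝ) - δ := by linarith [div_pos hv0 (show (0 : ℝ) < 4 by norm_num)]
    have h3 : 0 < (k : ℝ) + δ := by linarith
    have h4 : C k - A k = Real.log (((k : ℝ) + δ) / ((k : ℝ) - δ)) / Real.log b := by
      show Real.log (((k : ℝ) + δ) / v) / Real.log b - Real.log (((k : ℝ) - δ) / v) / Real.log b = _
      rw [← sub_div, Real.log_div h3.ne' hv0.ne', Real.log_div h2.ne' hv0.ne',
        Real.log_div h3.ne' h2.ne']
      ring
    rw [h4]
    have h5 : Real.log (((k : ℝ) + δ) / ((k : ℝ) - δ)) ≤ 8 * δ / v := by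
      have h6 := Real.log_le_sub_one_of_pos (div_pos h3 h2)
      refine h6.trans ?_
      have h7 : ((k : ℝ) + δ) / ((k : ℝ) - δ) - 1 = 2 * δ / ((k : ℝ) - δ) := by
        field_simp
        ring
      rw [h7, div_le_div_iff₀ h2 hv0]
      nlinarith
    calc Real.log (((k : ℝ) + δ) / ((k : ℝ) - δ)) / Real.log b ≤ (8 * δ / v) / Real.log b :=
          div_le_div_of_nonneg_right h5 hlogb.le
      _ = 8 * δ / (v * Real.log b) := by rw [div_div]
  have hcardK : (K.card : ℝ) ≤ (b + 2) * v := by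
    rw [hK, Int.card_Icc]
    have h1 : ⌊v⌋ ≤ ⌊b * v⌋ := by
      apply Int.floor_le_floor
      nlinarith
    have h2 : ((⌊b * v⌋ + 1 + 1 - ⌊v⌋).toNat : ℝ) = (⌊b * v⌋ + 1 + 1 - ⌊v⌋ : ℝ) := by
      have h3 : ((⌊b * v⌋ + 1 + 1 - ⌊v⌋).toNat : ℤ) = ⌊b * v⌋ + 1 + 1 - ⌊v⌋ :=
        Int.toNat_of_nonneg (by linarith)
      exact_mod_cast h3
    rw [h2]
    have h4 := Int.floor_le (b * v)
    have h5 := Int.lt_floor_add_one v
    nlinarith
  have hsum : ∑ k ∈ K, (cl (C k) - cl (A k)) ≤ 8 * (b + 2) / Real.log b * δ := by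
    calc ∑ k ∈ K, (cl (C k) - cl (A k)) ≤ ∑ k ∈ K, 8 * δ / (v * Real.log b) :=
          Finset.sum_le_sum hdiff
      _ = (K.card : ℝ) * (8 * δ / (v * Real.log b)) := by
          rw [Finset.sum_const, nsmul_eq_mul]
      _ ≤ ((b + 2) * v) * (8 * δ / (v * Real.log b)) :=
          mul_le_mul_of_nonneg_right hcardK (by positivity)
      _ = 8 * (b + 2) / Real.log b * δ := by
          field_simp
  have hUD := ud_irr hα
  have hlim : Tendsto (fun N : ℕ => ∑ k ∈ K, (((Finset.range N).filter (fun n : ℕ =>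
      cl (A k) ≤ Int.fract ((n : ℝ) * α) ∧ Int.fract ((n : ℝ) * α) < cl (C k))).card : ℝ) / (N : ℝ))
      atTop (𝓝 (∑ k ∈ K, (cl (C k) - cl (A k)))) := by
    refine tendsto_finset_sum _ fun k hkK => ?_
    exact hUD (cl (A k)) (cl (C k)) (cl_nonneg _) (cl_mono (hAC k hkK)) (cl_le_one _)
  have hlt : ∑ k ∈ K, (cl (C k) - cl (A k)) < (8 * (b + 2) / Real.log b + 1) * δ := by
    have : (8 * (b + 2) / Real.log b + 1) * δ = 8 * (b + 2) / Real.log b * δ + δ := by ring
    rw [this]
    linarith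
  filter_upwards [hlim.eventually (gt_mem_nhds hlt), eventually_gt_atTop 0] with N hN hN0
  have hN0' : (0 : ℝ) < N := by exact_mod_cast hN0
  rw [← Finset.sum_div, div_lt_iff₀ hN0'] at hN
  refine le_trans ?_ hN.le
  have hsub : ((range N).filter fun n : ℕ => dz (V * b ^ (Int.fract ((n : ℝ) * α))) < δ) ⊆
      K.biUnion (fun k => (Finset.range N).filter (fun n : ℕ =>
      cl (A k) ≤ Int.fract ((n : ℝ) * α) ∧ Int.fract ((n : ℝ) * α) < cl (C k))) := by
    intro n hn
    rw [Finset.mem_filter] at hn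
    obtain ⟨hnN, hn⟩ := hn
    rw [dz_abs_mul] at hn
    set θ := Int.fract ((n : ℝ) * α) with hθ
    have hθ0 : 0 ≤ θ := Int.fract_nonneg _
    have hθ1 : θ < 1 := Int.fract_lt_one _
    set y : ℝ := v * b ^ θ with hy
    have hbθ0 : 0 < b ^ θ := Real.rpow_pos_of_pos hb0 θ
    have hbθ1 : 1 ≤ b ^ θ := Real.one_le_rpow hb.le hθ0
    have hbθ2 : b ^ θ < b := by
      calc b ^ θ < b ^ (1 : ℝ) := Real.rpow_lt_rpow_of_exponent_lt hb hθ1
        _ = b := Real.rpow_one b
    have hy1 : v ≤ y := by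
      rw [hy]; nlinarith
    have hy2 : y < b * v := by
      rw [hy]; nlinarith
    have hyk : |y - round y| < δ := hn
    rw [abs_lt] at hyk
    have hkK : round y ∈ K := by
      rw [hK, Finset.mem_Icc]
      constructor
      · have h1 : (⌊v⌋ : ℝ) < (round y : ℝ) + 1 := by
          have := Int.floor_le v
          linarith [hyk.2]
        have h2 : ⌊v⌋ < round y + 1 := by exact_mod_cast h1
        omega
      · have h1 : (round y : ℝ) < (⌊b * v⌋ : ℝ) + 2 := by
          have := Int.lt_floor_add_one (b * v)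
          linarith [hyk.1]
        have h2 : round y < ⌊b * v⌋ + 2 := by exact_mod_cast h1
        omega
    have h1 := hk _ hkK
    have h2 : 0 < (round y : ℝ) - δ := by
      linarith [div_pos hv0 (show (0 : ℝ) < 4 by norm_num)]
    have h3 : 0 < (round y : ℝ) + δ := by linarith
    have hyv : y / v = b ^ θ := by
      rw [hy]; field_simp
    have hlogy : Real.log (y / v) = θ * Real.log b := by
      rw [hyv, Real.log_rpow hb0]
    have hAθ : A (round y) ≤ θ := by
      show Real.log (((round y : ℝ) - δ) / v) / Real.log b ≤ θ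
      rw [div_le_iff₀ hlogb, ← hlogy]
      apply Real.log_le_log (by positivity)
      apply div_le_div_of_nonneg_right _ hv0.le
      linarith [hyk.1]
    have hCθ : θ < C (round y) := by
      show θ < Real.log (((round y : ℝ) + δ) / v) / Real.log b
      rw [lt_div_iff₀ hlogb, ← hlogy]
      apply Real.log_lt_log (by positivity)
      apply div_lt_div_of_pos_right _ hv0
      linarith [hyk.2]
    rw [Finset.mem_biUnion]
    refine ⟨round y, hkK, ?_⟩
    rw [Finset.mem_filter]
    refine ⟨hnN, ?_, ?_⟩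
    · unfold cl
      exact (min_le_right _ _).trans (max_le hθ0 hAθ)
    · unfold cl
      exact lt_min hθ1 (lt_max_of_lt_right hCθ)
  have hc := (Finset.card_le_card hsub).trans Finset.card_biUnion_le
  exact_mod_cast hc

end Pool.Agent.R430.RB
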