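import Pool.Agent.R430.RB.Stm

/-!
# RB-SLLN (helper139): strong law for bounded variables with orthogonality beyond a distance
-/

set_option autoImplicit false

open Finset Filter Topology MeasureTheory ProbabilityTheory
open scoped Real

namespace Pool.Agent.R430.RB

namespace SLLN

/-- squares with summable integrals tend to zero almost everywhere (copied from
`Pool.Agent.R739.RD.ae_tendsto_zero`) -/
lemma ae_tendsto_zero {α : Type} [MeasurableSpace α] {μ : Measure α} (f : ℕ → α → ℝ)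
    (hm : ∀ k, Measurable (f k)) (hi : ∀ k, Integrable (fun x => (f k x) ^ 2) μ)
    (hs : Summable fun k => ∫ x, (f k x) ^ 2 ∂μ) :
    ∀ᵐ x ∂μ, Tendsto (fun k => f k x) atTop (𝓝 0) := by
  have h1 : ∫⁻ x, ∑' k, ENNReal.ofReal ((f k x) ^ 2) ∂μ =
      ∑' k, ∫⁻ x, ENNReal.ofReal ((f k x) ^ 2) ∂μ :=
    lintegral_tsum fun k => ((hm k).pow_const 2).ennreal_ofReal.aemeasurable
  have h2 : ∀ k, ∫⁻ x, ENNReal.ofReal ((f k x) ^ 2) ∂μ = ENNReal.ofReal (∫ x, (f k x) ^ 2 ∂μ) :=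
    fun k => (ofReal_integral_eq_lintegral_ofReal (hi k)
      (Eventually.of_forall fun x => sq_nonneg _)).symm
  simp only [h2] at h1
  have h3 : ∑' k, ENNReal.ofReal (∫ x, (f k x) ^ 2 ∂μ) ≠ ⊤ := by
    rw [← ENNReal.ofReal_tsum_of_nonneg (fun k => integral_nonneg fun x => sq_nonneg _) hs]
    exact ENNReal.ofReal_ne_top
  have h4 : ∀ᵐ x ∂μ, ∑' k, ENNReal.ofReal ((f k x) ^ 2) < ⊤ := by
    refine ae_lt_top (Measurable.tsum fun k => ((hm k).pow_const 2).ennreal_ofReal) ?_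
    rw [h1]; exact h3
  filter_upwards [h4] with x hx
  have h5 := ENNReal.tendsto_atTop_zero_of_tsum_ne_top hx.ne
  have h6 : Tendsto (fun k => (f k x) ^ 2) atTop (𝓝 0) := by
    have h7 := (ENNReal.tendsto_toReal ENNReal.zero_ne_top).comp h5
    simp only [ENNReal.toReal_zero] at h7
    refine h7.congr fun k => ?_
    simp only [Function.comp]
    exact ENNReal.toReal_ofReal (sq_nonneg _)
  have h8 : Tendsto (fun k => √((f k x) ^ 2)) atTop (𝓝 (√0)) :=
    (Real.continuous_sqrt.tendsto 0).comp h6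
  rw [Real.sqrt_zero] at h8
  have h9 : Tendsto (fun k => |f k x|) atTop (𝓝 0) := h8.congr fun k => Real.sqrt_sq_eq_abs _
  exact (tendsto_zero_iff_abs_tendsto_zero _).mpr h9

/-- the deterministic part -/
lemma det (y : ℕ → ℂ) (hy : ∀ n, ‖y n‖ ≤ 2)
    (h : Tendsto (fun k : ℕ => ‖∑ n ∈ range (k ^ 2), y n‖ / (k : ℝ) ^ 2) atTop (𝓝 0)) :
    Tendsto (fun N : ℕ => ‖∑ n ∈ range N, y n‖ / N) atTop (𝓝 0) := by
  have hs : Tendsto Nat.sqrt atTop atTop := by
    refine tendsto_atTop.2 fun b => ?_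
    filter_upwards [eventually_ge_atTop (b * b)] with n hn
    exact Nat.le_sqrt.2 hn
  have h1 : Tendsto (fun N : ℕ => ‖∑ n ∈ range ((Nat.sqrt N) ^ 2), y n‖ / ((Nat.sqrt N : ℕ) : ℝ) ^ 2)
      atTop (𝓝 0) := h.comp hs
  have h2 : Tendsto (fun N : ℕ => (4 : ℝ) / ((Nat.sqrt N : ℕ) : ℝ)) atTop (𝓝 0) :=
    (tendsto_const_div_atTop_nhds_zero_nat 4).comp hs
  have h3 := h1.add h2
  rw [add_zero] at h3
  refine squeeze_zero' (Eventually.of_forall fun N => by positivity) ?_ h3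
  filter_upwards [eventually_ge_atTop 1] with N hN
  set k := Nat.sqrt N with hk
  have hk1 : 1 ≤ k := by
    rw [hk, Nat.le_sqrt]
    omega
  have hk2 : k ^ 2 ≤ N := Nat.sqrt_le' N
  have hk3 : N ≤ k ^ 2 + 2 * k := by
    have := Nat.lt_succ_sqrt' N
    rw [← hk] at this
    have e : (k.succ) ^ 2 = k ^ 2 + 2 * k + 1 := by
      simp only [Nat.succ_eq_add_one]
      ring
    omega
  have e1 : ∑ n ∈ range N, y n = ∑ n ∈ range (k ^ 2), y n + ∑ n ∈ Finset.Ico (k ^ 2) N, y n :=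
    (Finset.sum_range_add_sum_Ico y hk2).symm
  have e2 : ‖∑ n ∈ Finset.Ico (k ^ 2) N, y n‖ ≤ 4 * k := by
    refine (norm_sum_le _ _).trans ((Finset.sum_le_card_nsmul _ _ 2 fun n _ => hy n).trans ?_)
    rw [Nat.card_Ico, nsmul_eq_mul]
    have : ((N - k ^ 2 : ℕ) : ℝ) ≤ ((2 * k : ℕ) : ℝ) := by exact_mod_cast (by omega)
    push_cast at this ⊢
    linarith
  have hkr : (0 : ℝ) < (k : ℝ) := by exact_mod_cast hk1
  have hNr : ((k : ℝ)) ^ 2 ≤ N := by exact_mod_cast hk2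
  calc ‖∑ n ∈ range N, y n‖ / N ≤ (‖∑ n ∈ range (k ^ 2), y n‖ + 4 * k) / N := by
        refine div_le_div_of_nonneg_right ?_ (Nat.cast_nonneg _)
        rw [e1]
        exact (norm_add_le _ _).trans (by linarith)
    _ ≤ (‖∑ n ∈ range (k ^ 2), y n‖ + 4 * k) / (k : ℝ) ^ 2 :=
        div_le_div_of_nonneg_left (by positivity) (by positivity) hNr
    _ = ‖∑ n ∈ range (k ^ 2), y n‖ / (k : ℝ) ^ 2 + 4 / k := by
        field_simp

/-- the second moment -/
lemma mom {Ω : Type} [MeasurableSpace Ω] (P : Measure Ω) [IsProbabilityMeasure P]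
    (Y : ℕ → Ω → ℂ) (H : ℕ) (hm : ∀ n, Measurable (Y n)) (hb : ∀ n ω, ‖Y n ω‖ ≤ 2)
    (ho : ∀ m n, m + H ≤ n → ∫ ω, Y n ω * (starRingEnd ℂ) (Y m ω) ∂P = 0) (N : ℕ) :
    ∫ ω, ‖∑ n ∈ range N, Y n ω‖ ^ 2 ∂P ≤ 4 * (2 * H + 1) * N := by
  have hmm : ∀ n m, Measurable fun ω => Y n ω * (starRingEnd ℂ) (Y m ω) := fun n m =>
    (hm n).mul (Complex.continuous_conj.measurable.comp (hm m))
  have hnb : ∀ n m ω, ‖Y n ω * (starRingEnd ℂ) (Y m ω)‖ ≤ 4 := by
    intro n m ω
    rw [norm_mul, RCLike.norm_conj]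
    have h1 := hb n ω
    have h2 := hb m ω
    have h3 := norm_nonneg (Y n ω)
    have h4 := norm_nonneg (Y m ω)
    nlinarith
  have hii : ∀ n m, Integrable (fun ω => Y n ω * (starRingEnd ℂ) (Y m ω)) P := fun n m =>
    Integrable.of_bound (hmm n m).aestronglyMeasurable 4 (Eventually.of_forall (hnb n m))
  have hc : ∀ n m, ‖∫ ω, Y n ω * (starRingEnd ℂ) (Y m ω) ∂P‖ ≤
      if n < m + H ∧ m < n + H then 4 else 0 := by
    intro n m
    by_cases h1 : m + H ≤ n
    · rw [ho m n h1, norm_zero]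
      split_ifs <;> norm_num
    · by_cases h2 : n + H ≤ m
      · have h3 := ho n m h2
        have h4 : ∫ ω, Y n ω * (starRingEnd ℂ) (Y m ω) ∂P =
            (starRingEnd ℂ) (∫ ω, Y m ω * (starRingEnd ℂ) (Y n ω) ∂P) := by
          rw [← integral_conj]
          refine integral_congr_ae (Eventually.of_forall fun ω => ?_)
          simp only [map_mul, Complex.conj_conj]
          ring
        rw [h4, h3, map_zero, norm_zero]
        split_ifs <;> norm_num
      · rw [if_pos ⟨by omega, by omega⟩]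
        have h3 := norm_integral_le_of_norm_le_const (μ := P)
          (f := fun ω => Y n ω * (starRingEnd ℂ) (Y m ω)) (C := 4)
          (Eventually.of_forall (hnb n m))
        rwa [probReal_univ, mul_one] at h3
  have e1 : ((∫ ω, ‖∑ n ∈ range N, Y n ω‖ ^ 2 ∂P : ℝ) : ℂ) =
      ∑ n ∈ range N, ∑ m ∈ range N, ∫ ω, Y n ω * (starRingEnd ℂ) (Y m ω) ∂P := by
    rw [← integral_complex_ofReal]
    have e2 : ∀ ω, ((‖∑ n ∈ range N, Y n ω‖ ^ 2 : ℝ) : ℂ) =
        ∑ n ∈ range N, ∑ m ∈ range N, Y n ω * (starRingEnd ℂ) (Y m ω) := by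
      intro ω
      rw [← Finset.sum_mul_sum, ← map_sum, Complex.mul_conj, Complex.normSq_eq_norm_sq]
    simp_rw [e2]
    rw [integral_finset_sum _ fun n _ => integrable_finset_sum _ fun m _ => hii n m]
    refine Finset.sum_congr rfl fun n _ => ?_
    rw [integral_finset_sum _ fun m _ => hii n m]
  have h0 : 0 ≤ ∫ ω, ‖∑ n ∈ range N, Y n ω‖ ^ 2 ∂P := integral_nonneg fun ω => by positivity
  have h1 : ∫ ω, ‖∑ n ∈ range N, Y n ω‖ ^ 2 ∂P =
      ‖((∫ ω, ‖∑ n ∈ range N, Y n ω‖ ^ 2 ∂P : ℝ) : ℂ)‖ := by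
    rw [Complex.norm_real, Real.norm_of_nonneg h0]
  rw [h1, e1]
  refine (norm_sum_le _ _).trans ?_
  have h2 : ∀ n ∈ range N, ‖∑ m ∈ range N, ∫ ω, Y n ω * (starRingEnd ℂ) (Y m ω) ∂P‖ ≤
      4 * (2 * H + 1) := by
    intro n _
    refine (norm_sum_le _ _).trans ((Finset.sum_le_sum fun m _ => hc n m).trans ?_)
    rw [← Finset.sum_filter, Finset.sum_const, nsmul_eq_mul]
    have h3 : ((range N).filter fun m => n < m + H ∧ m < n + H).card ≤ 2 * H + 1 := by
      have h4 : ((range N).filter fun m => n < m + H ∧ m < n + H) ⊆ Finset.Ico (n + 1 - H) (n + H) := by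
        intro m hm
        rw [Finset.mem_filter] at hm
        rw [Finset.mem_Ico]
        omega
      refine (Finset.card_le_card h4).trans ?_
      rw [Nat.card_Ico]
      omega
    have h5 : (((range N).filter fun m => n < m + H ∧ m < n + H).card : ℝ) ≤ 2 * H + 1 := by
      exact_mod_cast h3
    linarith
  refine (Finset.sum_le_card_nsmul _ _ _ h2).trans ?_
  rw [Finset.card_range, nsmul_eq_mul]
  exact le_of_eq (by ring)

end SLLN

theorem slln : S_SLLN := by
  intro Ω _ P _ Y H hm hb ho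
  have hSm : ∀ N : ℕ, Measurable fun ω => ∑ n ∈ range N, Y n ω := fun N =>
    Finset.measurable_sum _ fun n _ => hm n
  have hSb : ∀ (N : ℕ) ω, ‖∑ n ∈ range N, Y n ω‖ ≤ 2 * N := by
    intro N ω
    refine (norm_sum_le _ _).trans ((Finset.sum_le_card_nsmul _ _ 2 fun n _ => hb n ω).trans ?_)
    rw [Finset.card_range, nsmul_eq_mul]
    exact le_of_eq (by ring)
  have key : ∀ᵐ ω ∂P, Tendsto (fun k : ℕ => ‖∑ n ∈ range (k ^ 2), Y n ω‖ / (k : ℝ) ^ 2)
      atTop (𝓝 0) := by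
    refine SLLN.ae_tendsto_zero (fun k ω => ‖∑ n ∈ range (k ^ 2), Y n ω‖ / (k : ℝ) ^ 2)
      (fun k => (hSm _).norm.div_const _) (fun k => ?_) ?_
    · refine Integrable.of_bound
        (((hSm (k ^ 2)).norm.div_const ((k : ℝ) ^ 2)).pow_const 2).aestronglyMeasurable 4
        (Eventually.of_forall fun ω => ?_)
      have h1 := hSb (k ^ 2) ω
      push_cast at h1
      have h2 : ‖∑ n ∈ range (k ^ 2), Y n ω‖ / (k : ℝ) ^ 2 ≤ 2 := by
        rcases Nat.eq_zero_or_pos k with hk | hk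
        · subst hk; simp
        · rw [div_le_iff₀ (by positivity)]
          exact h1
      have h3 : 0 ≤ ‖∑ n ∈ range (k ^ 2), Y n ω‖ / (k : ℝ) ^ 2 := by positivity
      rw [Real.norm_of_nonneg (by positivity)]
      nlinarith
    · have hs : Summable fun k : ℕ => 4 * (2 * (H : ℝ) + 1) * (1 / (k : ℝ) ^ 2) :=
        (Real.summable_one_div_nat_pow.2 (by norm_num)).mul_left _
      refine Summable.of_nonneg_of_le (fun k => integral_nonneg fun ω => by positivity)
        (fun k => ?_) hs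
      have h1 := SLLN.mom P Y H hm hb ho (k ^ 2)
      have e : ∀ ω, (‖∑ n ∈ range (k ^ 2), Y n ω‖ / (k : ℝ) ^ 2) ^ 2 =
          (((k : ℝ) ^ 2) ^ 2)⁻¹ * ‖∑ n ∈ range (k ^ 2), Y n ω‖ ^ 2 := by
        intro ω
        rw [div_pow]
        ring
      simp_rw [e]
      rw [integral_const_mul]
      refine (mul_le_mul_of_nonneg_left h1 (by positivity)).trans (le_of_eq ?_)
      rcases Nat.eq_zero_or_pos k with hk | hk
      · subst hk; simp
      · have : (0 : ℝ) < k := by exact_mod_cast hk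
        push_cast
        field_simp
  filter_upwards [key] with ω hω
  exact SLLN.det (fun n => Y n ω) (fun n => hb n ω) hω

end Pool.Agent.R430.RB
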